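import Pool.Agent.H97.RK.Targets

/-!
# Row NX1 of the board `rks_modules`: a numerical bound
-/

set_option autoImplicit false

namespace Pool.Agent.H78.RKS

open Finset Pool.Agent.H97.RK

theorem inv_fact_le (s : ℕ) (hs : 1 ≤ s) :
    1 / (s.factorial : ℝ) ≤ (Real.exp 1 / s) ^ s := by
  have hs0 : (0 : ℝ) < s := by exact_mod_cast hs
  have h1 := Real.pow_div_factorial_le_exp (s : ℝ) hs0.le s
  have h2 : Real.exp (s : ℝ) = Real.exp 1 ^ s := by
    rw [← Real.exp_nat_mul, mul_one]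
  rw [h2] at h1
  have h3 : (0 : ℝ) < (s : ℝ) ^ s := pow_pos hs0 s
  rw [div_pow, le_div_iff₀ h3]
  calc 1 / (s.factorial : ℝ) * (s : ℝ) ^ s = (s : ℝ) ^ s / s.factorial := by ring
    _ ≤ Real.exp 1 ^ s := h1

theorem choose_le (n s : ℕ) (hs : 1 ≤ s) :
    (n.choose s : ℝ) ≤ (n * (Real.exp 1 / s)) ^ s := by
  have h1 : (n.choose s : ℝ) ≤ (n : ℝ) ^ s / s.factorial := Nat.choose_le_pow_div s n
  rw [mul_pow]
  calc (n.choose s : ℝ) ≤ (n : ℝ) ^ s / s.factorial := h1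
    _ = (n : ℝ) ^ s * (1 / s.factorial) := by ring
    _ ≤ (n : ℝ) ^ s * (Real.exp 1 / s) ^ s :=
      mul_le_mul_of_nonneg_left (inv_fact_le s hs) (by positivity)

theorem exp_sq_le : Real.exp 1 ^ 2 ≤ 8 := by
  have h1 := Real.exp_one_lt_d9
  have h2 := Real.exp_pos 1
  nlinarith

theorem geom_le (N : ℕ) : ∑ s ∈ Icc 1 N, (1 / 8 : ℝ) ^ s ≤ 1 / 7 := by
  have h1 : ∑ s ∈ Icc 1 N, (1 / 8 : ℝ) ^ s = (1 - (1 / 8) ^ N) / 7 := by
    induction N with
    | zero => simp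
    | succ N ih =>
      rw [Finset.sum_Icc_succ_top (by omega), ih]
      ring
  rw [h1]
  have h2 : (0 : ℝ) ≤ (1 / 8) ^ N := by positivity
  linarith

theorem le_three_pow (s : ℕ) : s + 1 ≤ 3 ^ s := by
  induction s with
  | zero => norm_num
  | succ s ih =>
    rw [pow_succ]
    omega

theorem pow_self_le (n s : ℕ) (hs : 1 ≤ s) (h : 3 * s ≤ n) : ((s : ℝ) / n) ^ s ≤ 1 / n := by
  have hn : (0 : ℝ) < n := by
    have : 0 < n := by omega
    exact_mod_cast this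
  obtain ⟨r, rfl⟩ : ∃ r, s = r + 1 := ⟨s - 1, by omega⟩
  rw [div_pow, div_le_div_iff₀ (pow_pos hn _) hn, one_mul]
  have h1 : (r + 1) ^ (r + 1) ≤ n ^ r := by
    calc (r + 1) ^ (r + 1) = (r + 1) ^ r * (r + 1) := pow_succ _ _
      _ ≤ (r + 1) ^ r * 3 ^ r := Nat.mul_le_mul_left _ (le_three_pow r)
      _ = ((r + 1) * 3) ^ r := (mul_pow _ _ _).symm
      _ ≤ n ^ r := Nat.pow_le_pow_left (by omega) r
  have h2 : (((r + 1 : ℕ) : ℝ)) ^ (r + 1) ≤ (n : ℝ) ^ r := by exact_mod_cast h1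
  calc (((r + 1 : ℕ) : ℝ)) ^ (r + 1) * n ≤ (n : ℝ) ^ r * n :=
        mul_le_mul_of_nonneg_right h2 hn.le
    _ = (n : ℝ) ^ (r + 1) := (pow_succ _ _).symm

theorem pf_NX1 : T_NX1 := by
  intro κ hκ hκ1
  obtain ⟨M, hM⟩ := exists_nat_ge (2 / κ)
  have hM1 : (2 : ℝ) ≤ M := by
    refine le_trans ?_ hM
    rw [le_div_iff₀ hκ]
    linarith
  obtain ⟨K0, hK0⟩ := exists_nat_ge (10 / κ)
  have hσ0 : (0 : ℝ) < (1 / 16) ^ M := by positivity
  have hM1' : 1 ≤ M := by
    have : (1 : ℝ) ≤ M := by linarith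
    exact_mod_cast this
  have hσ3 : ((1 : ℝ) / 16) ^ M ≤ 1 / 3 := by
    calc ((1 : ℝ) / 16) ^ M ≤ (1 / 16) ^ 1 :=
          pow_le_pow_of_le_one (by norm_num) (by norm_num) hM1'
      _ ≤ 1 / 3 := by norm_num
  refine ⟨(1 / 16) ^ M, hσ0, hσ3, max K0 6, ?_⟩
  intro k n m j hk hn hm hj hjk
  set σ : ℝ := (1 / 16) ^ M with hσ
  have hkK0 : K0 ≤ k := le_trans (le_max_left _ _) hk
  have hk6 : 6 ≤ k := le_trans (le_max_right _ _) hk
  have hn6 : 6 ≤ n := le_trans (le_max_right _ _) hn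
  have hn0 : (0 : ℝ) < n := by
    have : 0 < n := by omega
    exact_mod_cast this
  have hκk : 10 ≤ κ * k := by
    have h1 : 10 / κ ≤ k := hK0.trans (by exact_mod_cast hkK0)
    rw [div_le_iff₀ hκ] at h1
    linarith
  have hj5 : 5 ≤ j := by
    have h1 : (10 : ℝ) ≤ j := hκk.trans hj
    have h2 : 10 ≤ j := by exact_mod_cast h1
    omega
  obtain ⟨i, rfl⟩ : ∃ i, j = i + 5 := ⟨j - 5, by omega⟩
  have hi : κ * k / 2 ≤ i := by
    push_cast at hj
    linarith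
  have hMi : k ≤ M * i := by
    have h1 : (k : ℝ) ≤ M * i := by
      calc (k : ℝ) = 2 / κ * (κ * k / 2) := by field_simp
        _ ≤ M * i := mul_le_mul hM hi (by positivity) (by linarith)
    exact_mod_cast h1
  -- one term
  have hterm : ∀ s ∈ Icc 1 ⌊σ * n⌋₊, (n.choose s : ℝ) * m.choose s *
      (k.choose (i + 5) * ((s : ℝ) / n) ^ (i + 5)) ^ s ≤ (1 / n) ^ 3 * (1 / 8) ^ s := by
    intro s hs
    obtain ⟨hs1, hs2⟩ := Finset.mem_Icc.1 hs
    have hs0 : (0 : ℝ) < s := by exact_mod_cast hs1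
    have hsσ : (s : ℝ) ≤ σ * n := (Nat.le_floor_iff (by positivity)).1 hs2
    set x : ℝ := (s : ℝ) / n with hx
    have hx0 : 0 < x := div_pos hs0 hn0
    have hxσ : x ≤ σ := by
      rw [hx, div_le_iff₀ hn0]
      exact hsσ
    have h3s : 3 * s ≤ n := by
      have h1 : (3 : ℝ) * s ≤ n := by
        have h2 : σ * n ≤ 1 / 3 * n := mul_le_mul_of_nonneg_right hσ3 hn0.le
        linarith
      exact_mod_cast h1
    have hm' : (m : ℝ) ≤ 4 ^ k * n := by exact_mod_cast hm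
    have hch : (k.choose (i + 5) : ℝ) ≤ 2 ^ k := by
      exact_mod_cast Nat.choose_le_two_pow k (i + 5)
    have hxi : x ^ i ≤ (1 / 16) ^ k := by
      calc x ^ i ≤ σ ^ i := pow_le_pow_left₀ hx0.le hxσ i
        _ = (1 / 16) ^ (M * i) := by rw [hσ, ← pow_mul]
        _ ≤ (1 / 16) ^ k := pow_le_pow_of_le_one (by norm_num) (by norm_num) hMi
    have hE := Real.exp_pos 1
    have hbr : n * (Real.exp 1 / s) * (m * (Real.exp 1 / s)) *
        (k.choose (i + 5) * x ^ (i + 5)) ≤ x ^ 3 / 8 := by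
      have e1 : (n : ℝ) * (Real.exp 1 / s) = Real.exp 1 / x := by
        rw [hx]
        field_simp
      have e2 : (m : ℝ) * (Real.exp 1 / s) ≤ 4 ^ k * (Real.exp 1 / x) := by
        calc (m : ℝ) * (Real.exp 1 / s) ≤ 4 ^ k * n * (Real.exp 1 / s) :=
              mul_le_mul_of_nonneg_right hm' (by positivity)
          _ = 4 ^ k * (Real.exp 1 / x) := by rw [mul_assoc, e1]
      have e3 : (k.choose (i + 5) : ℝ) * x ^ (i + 5) ≤ 2 ^ k * ((1 / 16) ^ k * x ^ 5) := by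
        refine mul_le_mul hch ?_ (by positivity) (by positivity)
        rw [pow_add]
        exact mul_le_mul_of_nonneg_right hxi (by positivity)
      have e4 : (8 : ℝ) * (1 / 2) ^ k ≤ 1 / 8 := by
        calc (8 : ℝ) * (1 / 2) ^ k ≤ 8 * (1 / 2) ^ 6 :=
              mul_le_mul_of_nonneg_left
                (pow_le_pow_of_le_one (by norm_num) (by norm_num) hk6) (by norm_num)
          _ = 1 / 8 := by norm_num
      calc n * (Real.exp 1 / s) * (m * (Real.exp 1 / s)) * (k.choose (i + 5) * x ^ (i + 5))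
          ≤ Real.exp 1 / x * (4 ^ k * (Real.exp 1 / x)) * (2 ^ k * ((1 / 16) ^ k * x ^ 5)) := by
            rw [e1]
            exact mul_le_mul (mul_le_mul_of_nonneg_left e2 (by positivity)) e3 (by positivity)
              (by positivity)
        _ = Real.exp 1 ^ 2 * ((4 : ℝ) ^ k * 2 ^ k * (1 / 16) ^ k) * x ^ 3 := by
            field_simp
        _ = Real.exp 1 ^ 2 * (1 / 2) ^ k * x ^ 3 := by
            rw [← mul_pow, ← mul_pow]
            norm_num
        _ ≤ 8 * (1 / 2) ^ k * x ^ 3 :=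
            mul_le_mul_of_nonneg_right (mul_le_mul_of_nonneg_right exp_sq_le (by positivity))
              (by positivity)
        _ ≤ 1 / 8 * x ^ 3 := mul_le_mul_of_nonneg_right e4 (by positivity)
        _ = x ^ 3 / 8 := by ring
    calc (n.choose s : ℝ) * m.choose s * (k.choose (i + 5) * x ^ (i + 5)) ^ s
        ≤ (n * (Real.exp 1 / s)) ^ s * (m * (Real.exp 1 / s)) ^ s *
          (k.choose (i + 5) * x ^ (i + 5)) ^ s :=
          mul_le_mul_of_nonneg_right (mul_le_mul (choose_le n s hs1) (choose_le m s hs1)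
            (by positivity) (by positivity)) (by positivity)
      _ = (n * (Real.exp 1 / s) * (m * (Real.exp 1 / s)) *
          (k.choose (i + 5) * x ^ (i + 5))) ^ s := by rw [← mul_pow, ← mul_pow]
      _ ≤ (x ^ 3 / 8) ^ s := pow_le_pow_left₀ (by positivity) hbr s
      _ = (x ^ s) ^ 3 * (1 / 8) ^ s := by
          rw [div_eq_mul_one_div, mul_pow, ← pow_mul, ← pow_mul, mul_comm 3 s]
      _ ≤ (1 / n) ^ 3 * (1 / 8) ^ s :=
          mul_le_mul_of_nonneg_right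
            (pow_le_pow_left₀ (by positivity) (pow_self_le n s hs1 h3s) 3) (by positivity)
  refine (Finset.sum_le_sum hterm).trans ?_
  rw [← Finset.mul_sum]
  have h1 : (1 / (n : ℝ)) ^ 3 * ∑ s ∈ Icc 1 ⌊σ * n⌋₊, (1 / 8 : ℝ) ^ s ≤
      (1 / (n : ℝ)) ^ 3 * (1 / 7) :=
    mul_le_mul_of_nonneg_left (geom_le _) (by positivity)
  refine h1.trans ?_
  have hn1 : (1 : ℝ) ≤ n := by
    have : 1 ≤ n := by omega
    exact_mod_cast this
  rw [div_pow, one_pow, div_mul_div_comm, one_mul, div_le_div_iff₀ (by positivity) (by positivity)]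
  have h2 : (n : ℝ) ≤ (n : ℝ) ^ 3 := by
    calc (n : ℝ) = n ^ 1 := (pow_one _).symm
      _ ≤ n ^ 3 := pow_le_pow_right₀ hn1 (by norm_num)
  nlinarith

end Pool.Agent.H78.RKS
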